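import Mathlib

set_option autoImplicit false

namespace Pool.Agent.Results.MP_18d2fb_an.Divergent

open BoundedContinuousFunction Filter Topology

section Aux

variable (𝕜 : Type) [RCLike 𝕜]

/-- weighted backward shift on bounded sequences -/
noncomputable def V : (ℕ →ᵇ 𝕜) →L[𝕜] (ℕ →ᵇ 𝕜) :=
  LinearMap.mkContinuous
    { toFun := fun x => BoundedContinuousFunction.ofNormedAddCommGroupDiscrete
        (fun n => x (n + 1) / ((n + 1 : ℕ) : 𝕜)) ‖x‖ (fun n => by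
          rw [norm_div, RCLike.norm_natCast]
          have h1 : (1 : ℝ) ≤ ((n + 1 : ℕ) : ℝ) := by exact_mod_cast Nat.succ_le_succ (Nat.zero_le n)
          exact (div_le_self (norm_nonneg _) h1).trans (x.norm_coe_le_norm _))
      map_add' := fun x y => by ext n; simp [add_div]
      map_smul' := fun c x => by ext n; simp [mul_div_assoc] } 1 (fun x => by
        rw [one_mul]
        refine (BoundedContinuousFunction.norm_le (norm_nonneg _)).2 fun n => ?_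
        change ‖x (n + 1) / ((n + 1 : ℕ) : 𝕜)‖ ≤ ‖x‖
        rw [norm_div, RCLike.norm_natCast]
        have h1 : (1 : ℝ) ≤ ((n + 1 : ℕ) : ℝ) := by exact_mod_cast Nat.succ_le_succ (Nat.zero_le n)
        exact (div_le_self (norm_nonneg _) h1).trans (x.norm_coe_le_norm _))

theorem V_apply (x : ℕ →ᵇ 𝕜) (n : ℕ) : V 𝕜 x n = x (n + 1) / ((n + 1 : ℕ) : 𝕜) := rfl

theorem V_pow_apply (k : ℕ) (x : ℕ →ᵇ 𝕜) (n : ℕ) :
    (V 𝕜 ^ k) x n = x (n + k) * (n.factorial : 𝕜) / ((n + k).factorial : 𝕜) := by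
  induction k generalizing n with
  | zero =>
    have : (n.factorial : 𝕜) ≠ 0 := by exact_mod_cast n.factorial_ne_zero
    simp [this]
  | succ k ih =>
    rw [pow_succ', mul_apply_eq_comp, V_apply, ih]
    have h1 : ((n + 1 : ℕ) : 𝕜) ≠ 0 := by exact_mod_cast n.succ_ne_zero
    have h2 : n + 1 + k = n + (k + 1) := by ring
    rw [h2, Nat.factorial_succ n]
    push_cast at h1 ⊢
    field_simp

theorem norm_V_pow (k : ℕ) : ‖V 𝕜 ^ k‖ ≤ 1 / (k.factorial : ℝ) := by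
  refine ContinuousLinearMap.opNorm_le_bound _ (by positivity) fun x => ?_
  refine (BoundedContinuousFunction.norm_le (by positivity)).2 fun n => ?_
  rw [V_pow_apply, norm_div, norm_mul, RCLike.norm_natCast, RCLike.norm_natCast]
  have h1 : (n.factorial * k.factorial : ℝ) ≤ ((n + k).factorial : ℝ) := by
    exact_mod_cast Nat.le_of_dvd (Nat.factorial_pos _) (Nat.factorial_mul_factorial_dvd_factorial_add n k)
  have h2 : (0 : ℝ) < ((n + k).factorial : ℝ) := by exact_mod_cast Nat.factorial_pos _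
  have h3 : (0 : ℝ) < (k.factorial : ℝ) := by exact_mod_cast Nat.factorial_pos _
  have h4 := x.norm_coe_le_norm (n + k)
  rw [div_le_iff₀ h2]
  calc ‖x (n + k)‖ * (n.factorial : ℝ) ≤ ‖x‖ * (n.factorial : ℝ) := by gcongr
    _ = 1 / (k.factorial : ℝ) * ‖x‖ * (n.factorial * k.factorial : ℝ) := by field_simp
    _ ≤ _ := by gcongr

theorem smul_V_pow (μ : 𝕜) (k : ℕ) : (μ • V 𝕜) ^ k = μ ^ k • V 𝕜 ^ k := by
  induction k with
  | zero => simp
  | succ k ih =>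
    rw [pow_succ, pow_succ, pow_succ, ih]
    refine ContinuousLinearMap.ext fun x => ?_
    change μ ^ k • (V 𝕜 ^ k) (μ • V 𝕜 x) = (μ ^ k * μ) • (V 𝕜 ^ k) (V 𝕜 x)
    rw [map_smul, smul_smul]

theorem norm_smul_V_pow (μ : 𝕜) (k : ℕ) : ‖(μ • V 𝕜) ^ k‖ ≤ ‖μ‖ ^ k / (k.factorial : ℝ) := by
  rw [smul_V_pow, norm_smul, norm_pow, div_eq_mul_one_div]
  gcongr
  exact norm_V_pow 𝕜 k

theorem summable_V (μ : 𝕜) : Summable fun k : ℕ => (μ • V 𝕜) ^ k :=
  Summable.of_norm_bounded (Real.summable_pow_div_factorial ‖μ‖) (norm_smul_V_pow 𝕜 μ)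

theorem bij_V (μ : 𝕜) : Function.Bijective (1 - μ • V 𝕜 : (ℕ →ᵇ 𝕜) →L[𝕜] (ℕ →ᵇ 𝕜)) := by
  have h1 := (summable_V 𝕜 μ).tsum_pow_mul_one_sub
  have h2 := (summable_V 𝕜 μ).one_sub_mul_tsum_pow
  refine Function.bijective_iff_has_inverse.2 ⟨⇑(∑' k : ℕ, (μ • V 𝕜) ^ k), fun x => ?_, fun x => ?_⟩
  · rw [← mul_apply_eq_comp, h1]; rfl
  · rw [← mul_apply_eq_comp, h2]; rfl

/-- backward orbits of `V` -/
def E : Submodule 𝕜 (ℕ → (ℕ →ᵇ 𝕜)) where
  carrier := {x | ∀ m, x m = V 𝕜 (x (m + 1))}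
  add_mem' := fun {x y} hx hy m => by simp [hx m, hy m]
  zero_mem' := fun m => by simp
  smul_mem' := fun c x hx m => by simp [hx m]

theorem E_closed : IsClosed (E 𝕜 : Set (ℕ → (ℕ →ᵇ 𝕜))) := by
  have : (E 𝕜 : Set (ℕ → (ℕ →ᵇ 𝕜))) = ⋂ m, {x | x m = V 𝕜 (x (m + 1))} := by
    ext x; simp only [Set.mem_iInter]; rfl
  rw [this]
  exact isClosed_iInter fun m => isClosed_eq (continuous_apply m)
    ((V 𝕜).continuous.comp (continuous_apply _))

/-- the shift on backward orbits -/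
noncomputable def U : E 𝕜 →L[𝕜] E 𝕜 where
  toFun x := ⟨fun m => x.1 (m + 1), fun m => x.2 (m + 1)⟩
  map_add' _ _ := rfl
  map_smul' _ _ := rfl
  cont := by
    refine Continuous.subtype_mk (continuous_pi fun m => ?_) _
    exact (continuous_apply _).comp continuous_subtype_val

theorem U_pow (k : ℕ) (x : E 𝕜) (m : ℕ) : ((U 𝕜 ^ k) x).1 m = x.1 (m + k) := by
  induction k generalizing m with
  | zero => rfl
  | succ k ih =>
    rw [pow_succ', mul_apply_eq_comp]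
    change ((U 𝕜 ^ k) x).1 (m + 1) = _
    rw [ih, add_assoc, add_comm 1 k]

theorem E_pow (k : ℕ) (x : E 𝕜) (m : ℕ) : x.1 m = (V 𝕜 ^ k) (x.1 (m + k)) := by
  induction k with
  | zero => rfl
  | succ k ih =>
    rw [pow_succ, mul_apply_eq_comp, ih, x.2 (m + k)]; rfl

theorem bij_U (c : 𝕜) : Function.Bijective fun x : E 𝕜 => x - c • U 𝕜 x := by
  rcases eq_or_ne c 0 with rfl | hc
  · simp only [zero_smul, sub_zero]; exact Function.bijective_id
  have hb := bij_V 𝕜 c⁻¹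
  have key : ∀ x : E 𝕜, ∀ m, (x - c • U 𝕜 x).1 m
      = (-c) • (1 - c⁻¹ • V 𝕜 : (ℕ →ᵇ 𝕜) →L[𝕜] (ℕ →ᵇ 𝕜)) (x.1 (m + 1)) := by
    intro x m
    change x.1 m - c • x.1 (m + 1) = _
    rw [x.2 m]
    simp [smul_sub, smul_smul, hc]
    abel
  constructor
  · intro x y hxy
    apply Subtype.ext
    funext m
    have h := congrArg (fun z : E 𝕜 => z.1 m) hxy
    simp only [key] at h
    have h2 := hb.1 (smul_right_injective _ (neg_ne_zero.2 hc) h)
    rw [x.2 m, y.2 m, h2]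
  · intro y
    choose z hz using fun m => hb.2 ((-c)⁻¹ • y.1 m)
    have hzV : ∀ m, z m = V 𝕜 (z (m + 1)) := by
      intro m
      apply hb.1
      rw [hz m, y.2 m, ← map_smul, ← hz (m + 1)]
      simp
    refine ⟨⟨fun m => V 𝕜 (z m), fun m => by
      change V 𝕜 (z m) = V 𝕜 (V 𝕜 (z (m + 1))); rw [← hzV m]⟩, ?_⟩
    apply Subtype.ext
    funext m
    change (_ - c • U 𝕜 _ : E 𝕜).1 m = _
    rw [key]
    change (-c) • (1 - c⁻¹ • V 𝕜 : (ℕ →ᵇ 𝕜) →L[𝕜] (ℕ →ᵇ 𝕜)) (V 𝕜 (z (m + 1))) = _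
    rw [← hzV m, hz m, smul_smul, mul_inv_cancel₀ (neg_ne_zero.2 hc), one_smul]

theorem eq_zero_of_conv (c : 𝕜) (hc : c ≠ 0) (x s : E 𝕜)
    (h : Tendsto (fun n => ∑ k ∈ Finset.range n, c ^ k • (U 𝕜 ^ k) x) atTop (𝓝 s)) : x = 0 := by
  have h0 : Tendsto (fun k => c ^ k • (U 𝕜 ^ k) x) atTop (𝓝 0) := by
    have := ((tendsto_add_atTop_iff_nat 1).2 h).sub h
    simpa [Finset.sum_range_succ] using this
  apply Subtype.ext
  funext m
  have h1 : Tendsto (fun k => c ^ k • x.1 (m + k)) atTop (𝓝 0) := by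
    have := (((continuous_apply m).comp continuous_subtype_val).tendsto _).comp h0
    refine this.congr fun k => ?_
    change c ^ k • ((U 𝕜 ^ k) x).1 m = _
    rw [U_pow]
  have h2 : Tendsto (fun k => ‖(c⁻¹ • V 𝕜) ^ k‖ * ‖c ^ k • x.1 (m + k)‖) atTop (𝓝 (0 * 0)) := by
    refine Tendsto.mul ?_ (by simpa using h1.norm)
    simpa using (summable_V 𝕜 c⁻¹).tendsto_atTop_zero.norm
  rw [zero_mul] at h2
  have h3 : ∀ k, ‖x.1 m‖ ≤ ‖(c⁻¹ • V 𝕜) ^ k‖ * ‖c ^ k • x.1 (m + k)‖ := by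
    intro k
    refine le_trans (le_of_eq ?_) (ContinuousLinearMap.le_opNorm _ _)
    rw [smul_V_pow, _root_.smul_apply, map_smul, smul_smul, ← mul_pow,
      inv_mul_cancel₀ hc, one_pow, one_smul, ← E_pow]
  exact norm_le_zero_iff.1 (ge_of_tendsto' h2 h3)

theorem E_nontrivial : ∃ x : E 𝕜, x ≠ 0 := by
  classical
  let e : ℕ → (ℕ →ᵇ 𝕜) := fun m => BoundedContinuousFunction.ofNormedAddCommGroupDiscrete
    (fun n => if n = m then (m.factorial : 𝕜) else 0) (m.factorial : ℝ) (fun n => by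
      split_ifs <;> simp)
  have he : ∀ m n, e m n = if n = m then (m.factorial : 𝕜) else 0 := fun _ _ => rfl
  refine ⟨⟨e, fun m => ?_⟩, fun h => ?_⟩
  · ext n
    rw [V_apply, he, he]
    by_cases hn : n = m
    · subst hn
      have h1 : ((n + 1 : ℕ) : 𝕜) ≠ 0 := by exact_mod_cast n.succ_ne_zero
      simp only [if_true, Nat.factorial_succ]
      push_cast at h1 ⊢
      field_simp
    · simp [hn]
  · have := congrArg (fun z : E 𝕜 => z.1 0 0) h
    simp [he] at this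

theorem E_seminorms : ∃ p : SeminormFamily 𝕜 (E 𝕜) ℕ, WithSeminorms p := by
  have h1 := withSeminorms_pi (𝕜 := 𝕜) (ι := ℕ) (κ := fun _ => Fin 1)
    (E := fun _ => (ℕ →ᵇ 𝕜)) (fun _ => norm_withSeminorms 𝕜 (ℕ →ᵇ 𝕜))
  have h2 := (Topology.IsInducing.subtypeVal (t := (E 𝕜 : Set (ℕ → (ℕ →ᵇ 𝕜)))))
  have h3 := Topology.IsInducing.withSeminorms h1 (f := (E 𝕜).subtype) h2
  exact ⟨_, h3.congr_equiv (Equiv.sigmaUnique ℕ (fun _ => Fin 1)).symm⟩

end Aux

theorem result (𝕜 : Type) [RCLike 𝕜] :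
    ∃ (F : Type) (_ : AddCommGroup F) (_ : Module 𝕜 F) (_ : UniformSpace F)
      (_ : IsUniformAddGroup F) (_ : ContinuousSMul 𝕜 F) (_ : T2Space F) (_ : CompleteSpace F),
      (∃ p : SeminormFamily 𝕜 F ℕ, WithSeminorms p) ∧ Nontrivial F ∧
      ∃ T : F →L[𝕜] F, (∀ c : 𝕜, Function.Bijective fun x : F => x - c • T x) ∧
        ∀ c : 𝕜, c ≠ 0 → ∀ x : F, x ≠ 0 →
          ¬ ∃ s : F, Tendsto (fun n => ∑ k ∈ Finset.range n, c ^ k • (T ^ k) x) atTop (𝓝 s) := by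
  have := (E_closed 𝕜).completeSpace_coe
  refine ⟨E 𝕜, inferInstance, inferInstance, inferInstance, (E 𝕜).toAddSubgroup.isUniformAddGroup,
    inferInstance,
    inferInstance, this, E_seminorms 𝕜, ?_, U 𝕜, bij_U 𝕜, ?_⟩
  · obtain ⟨x, hx⟩ := E_nontrivial 𝕜
    exact ⟨⟨x, 0, hx⟩⟩
  · rintro c hc x hx ⟨s, hs⟩
    exact hx (eq_zero_of_conv 𝕜 c hc x s hs)

end Pool.Agent.Results.MP_18d2fb_an.Divergent
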